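import Pool.Agent.V11202.CK.Main

set_option autoImplicit false

open scoped ContDiff
open Pool.Agent.V11202.CK

namespace Pool.Agent.Results.MP_89bbb3_gt.NormalCKF

/-- The metric `gq = (1/2)(dt dy + dy dt) + dx² + x⁴ dy²` on `ℝ³` is Lorentzian, `kt = ∂_t` is a
nowhere zero normal conformal Killing field, the Cotton tensor is not zero at `(1,0,0)`, and no
neighbourhood `U` of a point `p` with non-zero Cotton tensor admits a smooth map `φ : U → ℝ³` with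
`φ^* g_h = e^{2u} g` with `h`, `u` smooth. -/
theorem result :
    IsLorentz gq ∧ IsCKF gq kt ∧ (∀ x, kt x ≠ 0) ∧ IsNormal gq kt ∧
      (∃ c a b, Cot gq c a b ![1, 0, 0] ≠ 0) ∧
      ∀ p : Eu 3, (∃ c a b, Cot gq c a b p ≠ 0) → ∀ U : Set (Eu 3), IsOpen U → p ∈ U →
        ∀ h : ℝ → ℝ, ContDiff ℝ ∞ h → ∀ (φ : Eu 3 → Eu 3) (u : Eu 3 → ℝ),
          ¬ ConfMap U gq (gh h) φ u := by
  refine ⟨gq_lorentz, kt_ckf, fun x hx => ?_, kt_normal, ⟨1, 0, 1, Cot_ne'⟩, ?_⟩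
  · have := congrFun hx 2
    simp [kt] at this
  · rintro p ⟨c, a, b, hp⟩ U hU hpU h hh φ u hc
    exact no_conf (Cot_ne c a b p hp) hU hpU hh hc

end Pool.Agent.Results.MP_89bbb3_gt.NormalCKF
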